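import Mathlib

set_option autoImplicit false
set_option maxSynthPendingDepth 3

namespace Pool.Agent.Results.MP_2da57a_co.Counter

open Set

def IsCM {U n : Type} (f : Set (n → Set U)) : Prop :=
  (∀ L₀ L₁ : n → Set U, (fun i => L₀ i ∪ L₁ i) ∈ f ↔
    ∃ c : n → Bool, (fun i => if c i then L₁ i else L₀ i) ∈ f) ∧
  ∀ L : n → Set U, (∃ i, L i = ∅) → L ∉ f

/-- the poset of completary multifuncoids, ordered by inclusion. -/
abbrev CM (U n : Type) := {f : Set (n → Set U) // IsCM f}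

/-- minimal among the nonempty (non-least) elements. -/
def Atom {U n : Type} (a : CM U n) : Prop := Minimal (fun b : CM U n => b.1.Nonempty) a

lemma up {U n : Type} {f : Set (n → Set U)} (h : IsCM f) {L M : n → Set U} (hL : L ∈ f)
    (hM : ∀ i, L i ⊆ M i) : M ∈ f := by
  have := (h.1 L M).2 ⟨fun _ => false, hL⟩
  rwa [show (fun i => L i ∪ M i) = M from funext fun i => union_eq_right.2 (hM i)] at this

def F : Set (ℕ → Set ℕ) := {L | ∃ k : ℕ, ∀ i, i + 1 ≤ k * (L i ∩ Iic i).ncard}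

lemma F_cm : IsCM F := by
  refine ⟨fun L M => ⟨fun ⟨k, h⟩ => ⟨fun i => decide ((L i ∩ Iic i).ncard ≤ (M i ∩ Iic i).ncard),
    k * 2, fun i => (h i).trans ?_⟩, fun ⟨c, k, h⟩ => ⟨k, fun i => (h i).trans ?_⟩⟩,
    fun L ⟨i, h⟩ ⟨k, hk⟩ => by simpa [h] using hk i⟩
  · rw [mul_assoc, union_inter_distrib_right]
    refine Nat.mul_le_mul_left k ((ncard_union_le _ _).trans ?_)
    by_cases h : (L i ∩ Iic i).ncard ≤ (M i ∩ Iic i).ncard <;> simp only [h, decide_true,
      decide_false, if_true, Bool.false_eq_true, if_false] <;> omega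
  · refine Nat.mul_le_mul_left k (ncard_le_ncard (inter_subset_inter_left _ ?_)
      ((finite_Iic i).inter_of_right _))
    dsimp only
    split_ifs
    exacts [subset_union_right, subset_union_left]

/-- the poset of completary multifuncoids of the form `(𝒫 ℕ)^ℕ` is neither atomic nor atomistic. -/
theorem result : ∃ f : CM ℕ ℕ, f.1.Nonempty ∧ (¬ ∃ a, Atom a ∧ a ≤ f) ∧
    ¬ IsLUB {a | Atom a ∧ a ≤ f} f := by
  have hne : (fun _ => univ) ∈ F := ⟨1, fun i => by simp⟩
  have key : ¬ ∃ a, Atom a ∧ a ≤ (⟨F, F_cm⟩ : CM ℕ ℕ) := by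
    rintro ⟨g, hg, hF⟩
    have h1 : ∀ L ∈ g.1, ∀ M ∈ g.1, (fun i => M i ∩ L i) ∈ g.1 := by
      intro L hL M hM
      refine hg.2 (y := ⟨{M | (fun i => M i ∩ L i) ∈ g.1}, fun A B => ?_, fun A ⟨i, h⟩ =>
        g.2.2 _ ⟨i, by simp [h]⟩⟩) ⟨L, by simpa using hL⟩
        (fun A hA => up g.2 hA fun i => inter_subset_left) hM
      simp only [mem_ofPred_eq, union_inter_distrib_right, g.2.1]
      exact exists_congr fun c => iff_of_eq (congrArg (· ∈ g.1) (funext fun i => by
        split_ifs <;> rfl))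
    have h2 : (fun _ => univ) ∈ g.1 := hg.1.elim fun L hL => up g.2 hL fun _ => subset_univ _
    have h3 : ∀ i, ∃ x, ∀ L ∈ g.1, x ∈ L i := by
      intro i
      by_contra! hc
      have : ∀ m, ∃ L ∈ g.1, ∀ x < m, x ∉ L i := fun m => by
        induction m with
        | zero => exact ⟨_, h2, by simp⟩
        | succ m ih =>
          obtain ⟨L, h4, h5⟩ := ih
          obtain ⟨M, h6, h7⟩ := hc m
          exact ⟨_, h1 L h4 M h6, fun x hx h8 => (Nat.lt_succ_iff_lt_or_eq.1 hx).elim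
            (fun h9 => h5 x h9 h8.2) (fun h9 => h7 (h9 ▸ h8.1))⟩
      obtain ⟨L, h4, h5⟩ := this (i + 1)
      obtain ⟨k, hk⟩ := hF h4
      have h6 : L i ∩ Iic i = ∅ := eq_empty_of_forall_notMem fun x hx => h5 x (Nat.lt_succ_of_le hx.2) hx.1
      simpa [h6] using hk i
    choose x hx using h3
    obtain ⟨c, hc⟩ := (g.2.1 (fun i => {x i}) fun i => {x i}ᶜ).1 (by simpa using h2)
    obtain ⟨k, hk⟩ := hF hc
    have h4 := hx k _ hc
    have h5 := hk k
    cases h : c k
    · have h6 := ncard_le_ncard (inter_subset_left : {x k} ∩ Iic k ⊆ _) (finite_singleton _)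
      simp only [h, Bool.false_eq_true, if_false, ncard_singleton] at h5 h6
      nlinarith
    · simp [h] at h4
  refine ⟨⟨F, F_cm⟩, ⟨_, hne⟩, key, fun h => ?_⟩
  exact h.2 (show (⟨∅, by simp [IsCM]⟩ : CM ℕ ℕ) ∈ upperBounds _ from fun a ha => (key ⟨a, ha⟩).elim) hne

end Pool.Agent.Results.MP_2da57a_co.Counter
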